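import Mathlib
import Pool.Agent.X300.RB.Zeta

/-!
# The conjecture of Bloch and Soulé for `A × Z`, for almost all abelian varieties `A`

Let `A` be a product of powers of abelian varieties of dimensions `g i` over the field with `q`
elements (over an extension with `Q = q ^ s` elements and up to isogeny), given by their Weil
polynomials `f i`, and let `Z` be a separated scheme of finite type over the field with `Q` elements,
singular or not, proper or not.

The theorem says that for almost all families `f` of Weil polynomials (all but a proportion
`O (q ^ (-1 / 6) log q)`, for all isogeny classes as well as for the ordinary ones) the conjecture of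
Bloch and Soulé (for all integers `b`: the ranks of the groups `CH_b(X, n)` are finite, almost all of
them are zero, and `- ord_{s = b} ζ_X(s) = ∑ (-1) ^ n rank CH_b(X, n)`) holds for `X = A × Z` if and
only if it holds for `X = Z`, for all `Z` whose Frobenius eigenvalues lie, up to powers, in a group
generated by the nonzero elements of the number field `E` and `r < g i` further numbers. For one
integer `b` it holds for `A × Z` if it holds for `Z` and the integers `b - k`, `0 ≤ k ≤ dim A`.

By Grothendieck's formula and duality `- ord_{s = b} ζ_X(s)` is the sum of `(-1) ^ m` times the
multiplicity of the eigenvalue `Q ^ (-b)` of the (geometric) Frobenius on the `ℓ`-adic homology group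
`H_m(X)`; this is how the order enters (`multN`, `multM`). The theories are written as in the case of
cohomology (`RelData`): the group of `Z` in the bidegree `(i, j)` is the motivic homology group
`H_{-i}(Z, ℚ(-j)) = CH_{-j}(Z, 2 j - i) ⊗ ℚ` (for `T`) or the `ℓ`-adic homology group `H_{-i}(Z)` (for
`R`, for all `j`), and the group of `A × Z` in the bidegree `(i, j)` is the motivic homology group
`H_{2 dim A - i}(A × Z, ℚ(dim A - j)) = CH_{dim A - j}(A × Z, 2 j - i) ⊗ ℚ` or the `ℓ`-adic homology
group `H_{2 dim A - i}(A × Z)`. So the weight `j` belongs to the integer `b = -j` for `Z`, and to
`b = dim A - j` for `A × Z`. Frobenius on `A` operates by pull-back, Frobenius on `Z` by the inverse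
of the push-forward. The condition `IsBounded` is fulfilled for `j₀ = - dim Z`.
-/

set_option autoImplicit false

namespace Pool.Agent.Results.MP_666bea_ag.AlmostAllFactorsZeta

open Pool.Agent.Y156.L Pool.Agent.X300.RB

/-- Let `r < g i` for all `i` and let `E` be a number field. Almost all families of abelian
varieties of dimensions `g i` over the field with `q` elements, given by their Weil polynomials
`f i`, have the property `ZetaForRankOver E q r f`: for products `A` of powers of these abelian
varieties and all `Z` of rank at most `r` over `E`, the conjecture of Bloch and Soulé for `A × Z` is
equivalent to the one for `Z`. -/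
theorem result {I : Type} [Fintype I] (g : I → ℕ) (r : ℕ) (hr : ∀ i, r < g i)
    (E : IntermediateField ℚ ℂ) [FiniteDimensional ℚ E] :
    AlmostAll g fun q f => ZetaForRankOver E q r f :=
  count_zeta g r hr E

end Pool.Agent.Results.MP_666bea_ag.AlmostAllFactorsZeta
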