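import Mathlib
import Pool.Agent.X296.Prod.Family
import Pool.Agent.X296.Prod.TBMembers
import Pool.Agent.X303.Arith.Base

/-!
# Orders of zeta functions and ranks of higher Chow groups: schemes generated by products of large
families of simple abelian varieties over all finite fields

`Schemes V` are data of the schemes `X : V` of finite type over `ℤ`: the closed points, the orders of
their residue fields and the groups `M X a b = CH_b(X, a - 2 b) ⊗ ℚ`, indexed by dimension, so that
`CH_b(X, i) = CH^(d - b)(X, i)` for `d = dim X`. `BlochSoule S X` is the conjunction of the statements
of Q1 and Q2 for `X`: the zeta function (the Euler product) of `X` has a meromorphic continuation to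
`ℂ`; for all integers `b = d - r` the groups `CH_b(X, i)` have finite rank, which is zero for all but
finitely many `i`, and the order of the zeta function at `s = b` is minus the alternating sum of
these ranks.

For each prime number `p` and each `a ≥ 1` the theorem gives sets `S p a g` of Frobenius polynomials
of absolutely simple ordinary abelian varieties of dimension `g` over the field with `q = p ^ a`
elements (`IsMember`, `IsLargeFamily`), that is, of isogeny classes:

* `S p a g` has at least `q ^ (g ^ 2 / 4 - C g log g)` members for `g ≥ g0`, with `C` and `g0` depending
  on `p` and `a`; the number of all isogeny classes of dimension `g` is `q ^ ((1 / 4 + o (1)) g ^ 2)`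
  (DiPippo, Howe; Lipnowski, Tsimerman);
* for given `p` and `a` different members, of the same or of different dimensions, have CM fields
  that are not isomorphic;
* each member is the Frobenius polynomial of an abelian variety in the sense of `RedAV` (the
  reduction of an abelian variety of CM type).

The basic schemes (`IsBasic`) are the spectra of the rings of integers of all number fields
(`IsNumberRing`: the theorems of Hecke, Dirichlet and Borel) and, for all `p` and `a`, the schemes over
finite fields of characteristic `p` in the class (`W495.FM.Generated`: closed under direct summands
of sums of twists of motives, and under the localisation triples) generated by the abelian varieties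
each of whose simple factors is supersingular or isogenous, over a finite extension, to a power of a
member of `S p a g`, for any `g` (`OfMembers`, `IsAbelianOfMembers`): so by all products of arbitrary
powers of any finite number of members, of any dimensions, and of supersingular abelian varieties.
`IsFinite` contains the formula of Grothendieck for the zeta function and the duality of the groups
`H_c^j` and `H_j`.

The theorem: all schemes `X` of finite type over `ℤ` in the smallest class (`Arith.Generated`) that
contains the basic schemes and is closed under localisation triples `(Z, X, X ∖ Z)` (two members give
the third one) and affine bundles (in both directions) satisfy the conjectures of Bloch and Soulé.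

Properties of the theory of cycles that are used for the abelian varieties (`IsChow`,
`IsMotivic`): Poincaré duality, the formal properties of correspondences, the nilpotence of
homologically trivial correspondences (Kimura), the operation of the Frobenius endomorphism on higher
Chow groups, the vanishing of the higher rational `K`-groups of a finite field (Quillen), and the
algebraicity of the classes in `Alg` (of which only products of classes of divisors matter here,
theorem of Tate). The passage from the Tate conjecture to all degrees and to the class `Generated` is
due to Soulé, Geisser, Kahn and Jannsen; the framework for arithmetic schemes is that of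
`GeneratedSchemes`.

The proof: the members are constructed with an auxiliary prime number `l` such that an inertia
element at `l` exchanges the two elements of one complex conjugate pair of roots of each member and
fixes all the other roots, for all members at the same time. As the fields of different members are
different, a Galois element separates these pairs, and it follows that all multiplicative relations
between the roots of any finite number of members come from the complex conjugate pairs
(`Pool.Agent.X296.Prod`).
-/

namespace Pool.Agent.Results.MP_666bea_ag.FixedFieldProducts

open Polynomial Pool.Agent.X296.Prod Pool.Agent.W495.TA Pool.Agent.W495.FM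
  Pool.Agent.X303.TBDual Pool.Agent.X303.Arith

/-- `X` is the spectrum of the ring of integers of a number field, or a scheme over a finite field in
the class generated by the products of powers of the members of a set `F p a` of Frobenius
polynomials over the field with `p ^ a` elements (and of supersingular abelian varieties), for any
`p` and `a`. -/
def IsBasic {V : Type} (D : Schemes V) (F : ℕ → ℕ → Set ℤ[X]) (X : V) : Prop :=
  IsNumberRing D X ∨ ∃ (p : ℕ) (_ : Fact p.Prime) (a : ℕ) (_ : 1 ≤ a) (ν : PadicAlgCl p ≃+* ℂ)
    (W : Type) (T : Homology ℂ W) (X' : W), IsHomology T ∧
      Pool.Agent.W495.FM.Generated T (IsAbelianOfMembers ν a (F p a) T) X' ∧ IsFinite D X T X'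

/-- **The conjectures of Bloch and Soulé** for the schemes generated by products of large families
over all finite fields and by the rings of integers. -/
theorem result :
    ∃ (C : ℕ → ℕ → ℝ) (g0 : ℕ → ℕ → ℕ) (S : ℕ → ℕ → ℕ → Finset ℤ[X]),
      (∀ (p : ℕ) [Fact p.Prime] (a : ℕ), 1 ≤ a →
        IsLargeFamily p a (C p a) (g0 p a) (S p a)) ∧
      ∀ (V : Type) (D : Schemes V), (∀ X, Converges D X) → ∀ X : V,
        Pool.Agent.X303.Arith.Generated D (IsBasic D fun p a => {P | ∃ g, P ∈ S p a g}) X →
          BlochSoule D X := by
  classical
  have h : ∀ p a : ℕ, ∃ (C : ℝ) (g0 : ℕ) (S : ℕ → Finset ℤ[X]), ∀ (hp : Fact p.Prime),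
      1 ≤ a → IsLargeFamily p a C g0 S ∧
      ∀ (ν : PadicAlgCl p ≃+* ℂ) (Y : RedAV p ν), OfMembers a {P | ∃ g, P ∈ S g} Y →
        TH117.BL.HasElementaryRelations Y := by
    intro p a
    by_cases hp : p.Prime
    · by_cases ha : 1 ≤ a
      · haveI : Fact p.Prime := ⟨hp⟩
        obtain ⟨C, g0, S, h1, h2⟩ := exists_largeFamily p a ha
        exact ⟨C, g0, S, fun _ _ => ⟨h1, h2⟩⟩
      · exact ⟨0, 0, fun _ => ∅, fun _ h => absurd h ha⟩
    · exact ⟨0, 0, fun _ => ∅, fun h => absurd h.out hp⟩
  choose C g0 S h1 using h
  refine ⟨C, g0, S, fun p hp a ha => (h1 p a hp ha).1, fun V D hD X hX => ?_⟩
  refine generated hD (fun Y hY => ?_) hX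
  rcases hY with hY | ⟨p, hp, a, ha, ν, W, T, Y', hT, h2, h3⟩
  · exact numberRing hY
  · exact finiteField hT (tb_members ((h1 p a hp ha).2 ν) hT h2) h3

end Pool.Agent.Results.MP_666bea_ag.FixedFieldProducts
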