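import Pool.Agent.X303.Five
import Pool.Agent.X303.Arith.Base

/-!
# Orders of zeta functions and ranks of higher Chow groups of arithmetic schemes

`Schemes V` are data of the schemes `X : V` of finite type over `ℤ`: the closed points, the orders of
their residue fields and the groups `M X a b = CH_b(X, a - 2 b) ⊗ ℚ`, indexed by dimension, so that
`CH_b(X, i) = CH^(d - b)(X, i)` for `d = dim X`. `BlochSoule S X` is the conjunction of the statements of Q1
and Q2 for `X`: the zeta function (the Euler product) of `X` has a meromorphic continuation to `ℂ`; for all
integers `b = d - r` the groups `CH_b(X, i)` have finite rank, which is zero for all but finitely many `i`,
and the order of the zeta function at `s = b` is minus the alternating sum of these ranks.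

We consider the following basic schemes (`IsBasic`):

* the spectra of the rings of integers of all number fields (for them the statements are theorems of Hecke,
  Dirichlet and Borel: `IsNumberRing`);
* the schemes over finite fields, of all characteristics, which belong to the class `FM.Generated` that
  is generated by **all abelian varieties of dimension at most five** and **all abelian varieties which
  over an algebraic closure are isogenous to products of elliptic curves and abelian surfaces**, with any
  number of factors (`IsFiveOrSurfaces`), by direct summands of finite sums of twists of motives and by
  localisation triples. For instance products of any number of curves of genus at most two.

The theorem: the statements hold for all schemes of finite type over `ℤ` in the smallest class `Generated`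
which contains the basic schemes, which contains all of a closed subscheme `Z` of `X`, `X` and `X ∖ Z` if
it contains two of them, and which is closed under affine bundles `Y → X` (in both directions).

The class contains for instance all projective and flag bundles, Grassmannians and smooth toric schemes over
the rings of integers, and over all members; the blow-ups `X` of such schemes along any regular closed
subschemes which are contained in the fibres and are, for example, products of curves of genus at most
two or abelian fivefolds over finite fields; and all schemes which are flat over a ring of integers,
have cellular fibres outside a finite set of primes, compatibly over an open subscheme, and fibres in the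
class above at the other primes. These can have any singularities.

The proof: the Tate conjecture for the abelian varieties, the starting point, is proved in the starting
files, together with the passage to all degrees, to singular schemes and to all integers `b`: then
`dim H_a(X, ℚ_ℓ(b))^(Frob)` is the rank of `CH_b(X, a - 2 b)`, and the eigenvalue one is semisimple. Properties
of the theory of cycles that are used (`IsChowS`, `IsMotivic`): Poincaré duality, the formal properties of
correspondences, the nilpotence of homologically trivial correspondences (Kimura), the operation of the
Frobenius endomorphism on higher Chow groups, the vanishing of the higher rational `K`-groups of a finite
field (Quillen), and the algebraicity of the classes in `AlgS` (theorems of Tate, Markman and Ramón Marí).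
The localisation sequences of Bloch and Levine give the rest.
-/

set_option autoImplicit false

namespace Pool.Agent.Results.MP_666bea_ag.GeneratedSchemes

open Pool.Agent.W495.TA Pool.Agent.W495.FM Pool.Agent.Y137.GN Pool.Agent.X303.TBDual
  Pool.Agent.X303.Arith

/-- `X` is the spectrum of the ring of integers of a number field, or a scheme over a finite field in the
class generated by all abelian varieties of dimension at most five and all products of elliptic curves
and abelian surfaces. -/
def IsBasic {V : Type} (S : Schemes V) (X : V) : Prop :=
  IsNumberRing S X ∨ ∃ (p : ℕ) (_ : Fact p.Prime) (ν : PadicAlgCl p ≃+* ℂ) (W : Type)
    (T : Homology ℂ W) (X' : W), IsHomology T ∧
      Pool.Agent.W495.FM.Generated T (IsFiveOrSurfaces p ν T) X' ∧ IsFinite S X T X'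

/-- **The conjectures of Bloch and Soulé** on the meromorphic continuation of the zeta function and on its
orders at the integers hold for all schemes of finite type over `ℤ` generated by basic schemes. -/
theorem result (V : Type) (S : Schemes V) (hS : ∀ X, Converges S X) (X : V)
    (hX : Pool.Agent.X303.Arith.Generated S (IsBasic S) X) : BlochSoule S X := by
  refine generated hS (fun Y hY => ?_) hX
  rcases hY with hY | ⟨p, hp, ν, W, T, Y', hT, h1, h2⟩
  · exact numberRing hY
  · exact finiteField hT (tb_five hT h1) h2

end Pool.Agent.Results.MP_666bea_ag.GeneratedSchemes
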