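import Pool.Agent.X156.GL.Sch

/-!
# The conjecture of Bloch and Soulé on orders and ranks: a criterion in terms of absolutely convergent sums
over the closed points, at every integer and for every dimension

`X` is a scheme of finite type over `ℤ` of dimension `d` (used are: the residue fields of the closed points are
finite, and `∑ N(x)^{-σ} < ∞` for `σ > d`). Let `s₀` be ANY point of the plane, in particular any integer
`d - r`, and suppose that `ζ_X` continues to a function which is meromorphic at the points of the horizontal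
segment from `s₀` to the line `Re s = d`. There is no hypothesis on the zeros, no growth condition, no functional
equation and no hypothesis outside of the segment. For a fixed `γ > π/2` put

`S(T) = - ∑_x ∑_{k ≥ 1} N(x)^{-k s₀} exp(iγ k log N(x) / T) / (k Γ(1 + k log N(x) / T))`,  `T > 0`,

the sum over the closed points `x` of `X`. For every `T > 0` the sum converges absolutely (the Gamma factor
beats every power of `N(x)^k`, also far to the left of the half plane of convergence). Then, as `T → ∞`: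

1. `S(T) = m (log T - Λ(γ)) - r₀ + O(1/T)`, where `m` is the order of `ζ_X` at `s₀` and `exp(r₀)` is its leading
   coefficient, and `Λ(γ)` is an explicit constant.
2. The order of `ζ_X` at `s₀` is `e` if and only if `Re S(T) / log T → e`; the order is `≤ e` (`≥ e`) if and only if
   `Re S(T) ≤ e log T + O(1)` (`≥ e log T - O(1)`).
3. The order is `e` and the leading coefficient is `B` if and only if `exp(S(T)) / T^e → exp(-e Λ(γ)) / B`.
4. Consequently the conjecture of Bloch and Soulé (Q2) for `X` and `r`, with the groups `C i = CH^r(X, i)`, holds if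
   and only if their ranks are finite, almost all zero, and
   `Re S(T) / log T → - ∑_i (-1)^i rank CH^r(X, i)`, where `s₀ = d - r`.
5. If `Re S(T) / log T` does not converge to an integer for some `s₀` and `γ > π/2`, then `ζ_X` has no meromorphic
   continuation to `ℂ` (a criterion for a counterexample to Q1).
-/

set_option autoImplicit false

open Filter Topology Asymptotics AlgebraicGeometry Pool.Agent.X156.GL.Sch

namespace Pool.Agent.Results.MP_666bea_ag.OrdersFromRotatedSums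

/-- The ranks of the abelian groups `C i` (for instance of `CH^r(X, i)`) are finite, almost all of them are zero, and
minus the order of `Z` at `s₀` is their alternating sum. -/
def RankFormula (C : ℕ → Type) [∀ i, AddCommGroup (C i)] (Z : ℂ → ℂ) (s₀ : ℂ) : Prop :=
  (∀ i, Module.rank ℤ (C i) < Cardinal.aleph0) ∧ {i | Module.rank ℤ (C i) ≠ 0}.Finite ∧
    ∃ m : ℤ, meromorphicOrderAt Z s₀ = m ∧ -m = ∑ᶠ i, (-1) ^ i * (Module.finrank ℤ (C i) : ℤ)

/-- **The conjecture of Bloch and Soulé and rotated sums over closed points.** -/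
theorem result (X : Scheme.{0}) (d : ℕ) (hX : IsArithmetic X d) (γ : ℝ) (hγ : Real.pi / 2 < γ) :
    -- absolute convergence, for every point `s₀`
    (∀ (s₀ : ℂ) (T : ℝ), 0 < T → Summable fun x => ‖term X s₀ γ T x‖) ∧
    (∀ (s₀ : ℂ) (Z : ℂ → ℂ), IsZeta X d s₀ Z →
      -- 1. the asymptotic formula
      (∃ (m : ℤ) (r₀ : ℂ), meromorphicOrderAt Z s₀ = m ∧
        meromorphicTrailingCoeffAt Z s₀ = Complex.exp r₀ ∧
        (fun T : ℝ => S X s₀ γ T - (m * (Real.log T - Lambda γ) - r₀)) =O[atTop] (fun T : ℝ => 1 / T)) ∧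
      -- 2. the order
      (∀ e : ℤ, (meromorphicOrderAt Z s₀ = e ↔
          Tendsto (fun T : ℝ => (S X s₀ γ T).re / Real.log T) atTop (𝓝 (e : ℝ))) ∧
        (meromorphicOrderAt Z s₀ ≤ e ↔
          ∃ c : ℝ, ∀ᶠ T : ℝ in atTop, (S X s₀ γ T).re ≤ e * Real.log T + c) ∧
        (e ≤ meromorphicOrderAt Z s₀ ↔
          ∃ c : ℝ, ∀ᶠ T : ℝ in atTop, e * Real.log T - c ≤ (S X s₀ γ T).re)) ∧
      -- 3. the order and the leading coefficient
      (∀ (e : ℤ) (B : ℂ), B ≠ 0 →
        ((meromorphicOrderAt Z s₀ = e ∧ meromorphicTrailingCoeffAt Z s₀ = B) ↔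
          Tendsto (fun T : ℝ => Complex.exp (S X s₀ γ T) / (T : ℂ) ^ e) atTop
            (𝓝 (Complex.exp (-(e * Lambda γ)) / B))))) ∧
    -- 4. the conjecture on the ranks
    (∀ (r : ℤ) (Z : ℂ → ℂ), IsZeta X d ((d : ℂ) - r) Z → ∀ (C : ℕ → Type) [∀ i, AddCommGroup (C i)],
      (RankFormula C Z ((d : ℂ) - r) ↔
        (∀ i, Module.rank ℤ (C i) < Cardinal.aleph0) ∧ {i | Module.rank ℤ (C i) ≠ 0}.Finite ∧
        Tendsto (fun T : ℝ => (S X ((d : ℂ) - r) γ T).re / Real.log T) atTop
          (𝓝 (((-∑ᶠ i, (-1) ^ i * (Module.finrank ℤ (C i) : ℤ)) : ℤ) : ℝ)))) ∧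
    -- 5. a criterion for a counterexample to the meromorphic continuation
    (∀ s₀ : ℂ, (¬ ∃ m : ℤ, Tendsto (fun T : ℝ => (S X s₀ γ T).re / Real.log T) atTop (𝓝 (m : ℝ))) →
      ¬ ∃ Z : ℂ → ℂ, MeromorphicOn Z Set.univ ∧ ∀ s : ℂ, (d : ℝ) < s.re →
        HasProd (fun x : Pts X => (1 - (N X x : ℂ) ^ (-s))⁻¹) (Z s)) := by
  have key : ∀ (s₀ : ℂ) (Z : ℂ → ℂ), IsZeta X d s₀ Z → ∀ e : ℤ, (meromorphicOrderAt Z s₀ = e ↔
      Tendsto (fun T : ℝ => (S X s₀ γ T).re / Real.log T) atTop (𝓝 (e : ℝ))) := by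
    intro s₀ Z hZ e
    obtain ⟨m, r₀, h1, h2, h3⟩ := law hX hZ hγ
    rw [h1, ← h3.order_iff]
    exact_mod_cast Iff.rfl
  refine ⟨fun s₀ T hT => summable hX s₀ γ hT, fun s₀ Z hZ => ⟨?_, fun e => ⟨key s₀ Z hZ e, ?_, ?_⟩, ?_⟩,
    fun r Z hZ C _ => ?_, fun s₀ h => ?_⟩
  · obtain ⟨m, r₀, h1, h2, h3⟩ := law hX hZ hγ
    exact ⟨m, r₀, h1, h2, h3⟩
  · obtain ⟨m, r₀, h1, h2, h3⟩ := law hX hZ hγ
    rw [h1, ← h3.le_iff]
    exact_mod_cast Iff.rfl
  · obtain ⟨m, r₀, h1, h2, h3⟩ := law hX hZ hγ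
    rw [h1, ← h3.ge_iff]
    exact_mod_cast Iff.rfl
  · intro e B hB
    obtain ⟨m, r₀, h1, h2, h3⟩ := law hX hZ hγ
    rw [h1, h2, ← h3.lead_iff e hB]
    exact and_congr_left fun _ => by exact_mod_cast Iff.rfl
  · unfold RankFormula
    refine and_congr_right fun _ => and_congr_right fun _ => ?_
    rw [← key _ Z hZ]
    constructor
    · rintro ⟨m, h1, h2⟩
      rw [h1, ← h2, neg_neg]
    · intro h1
      exact ⟨_, h1, by rw [neg_neg]⟩
  · rintro ⟨Z, h1, h2⟩
    have hZ : IsZeta X d s₀ Z := ⟨h2, fun x _ _ => h1 _ (Set.mem_univ _)⟩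
    obtain ⟨m, r₀, h3, h4, h5⟩ := law hX hZ hγ
    exact h ⟨m, h5.order_lim⟩

end Pool.Agent.Results.MP_666bea_ag.OrdersFromRotatedSums
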